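import Pool.Agent.W770.KP.Stm

/-! Project KP, part LB: the level bound for a union of planes -/

set_option autoImplicit false

open scoped Classical

namespace Pool.Agent.W403.KP

open Pool.Agent.W770.KP MvPolynomial

lemma eval_dehom {F : Type} [Field F] {m : ℕ} (B : MvPolynomial (Fin (m + 1)) F)
    (y : Fin m → F) :
    eval y (dehom B) = eval (Fin.cons 1 y : Fin (m + 1) → F) B := by
  induction B using MvPolynomial.induction_on with
  | C a => simp [dehom]
  | add p q hp hq =>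
    rw [map_add, ← hp, ← hq]
    simp only [dehom, map_add]
  | mul_X p i hp =>
    rw [map_mul, ← hp]
    simp only [dehom, map_mul, aeval_X, eval_X]
    congr 1
    refine Fin.cases ?_ (fun i => ?_) i
    · simp
    · simp

lemma dehom_monomial {F : Type} [Field F] {m : ℕ} (s : Fin (m + 1) →₀ ℕ) (a : F) :
    dehom (monomial s a) = monomial s.tail a := by
  rw [dehom, aeval_monomial, monomial_eq, Finsupp.prod_fintype _ _ (by simp),
    Finsupp.prod_fintype _ _ (by simp), Fin.prod_univ_succ]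
  simp [Finsupp.tail_apply]

lemma dehom_sum {F : Type} [Field F] {m : ℕ} (B : MvPolynomial (Fin (m + 1)) F) :
    dehom B = ∑ s ∈ B.support, monomial s.tail (B.coeff s) := by
  conv_lhs => rw [← MvPolynomial.support_sum_monomial_coeff B]
  rw [dehom, map_sum]
  refine Finset.sum_congr rfl fun s _ => ?_
  exact dehom_monomial s _

lemma degree_split {m : ℕ} (s : Fin (m + 1) →₀ ℕ) : s.degree = s 0 + s.tail.degree := by
  rw [Finsupp.degree_eq_sum, Finsupp.degree_eq_sum, Fin.sum_univ_succ]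
  rfl

lemma dehom_ne_zero {F : Type} [Field F] {m d : ℕ} (B : MvPolynomial (Fin (m + 1)) F)
    (hB : B.IsHomogeneous d) (h : B ≠ 0) : dehom B ≠ 0 := by
  obtain ⟨s0, hs0⟩ : ∃ s, coeff s B ≠ 0 := MvPolynomial.ne_zero_iff.mp h
  have hdeg : ∀ s, coeff s B ≠ 0 → s.degree = d := by
    intro s hs
    have h1 := hB hs
    rw [← h1, Finsupp.degree_eq_weight_one]
    rfl
  intro h0
  have h2 : coeff s0.tail (dehom B) = coeff s0 B := by
    rw [dehom_sum, coeff_sum, Finset.sum_eq_single s0]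
    · rw [coeff_monomial, if_pos rfl]
    · intro s hs hne
      rw [coeff_monomial, if_neg]
      intro ht
      apply hne
      have h3 := hdeg s (mem_support_iff.mp hs)
      have h4 := hdeg s0 hs0
      rw [degree_split] at h3 h4
      rw [ht] at h3
      ext i
      refine Fin.cases ?_ (fun i => ?_) i
      · omega
      · rw [← Finsupp.tail_apply, ← Finsupp.tail_apply, ht]
    · intro h5
      exact absurd (mem_support_iff.mpr hs0) h5
  rw [h0, coeff_zero] at h2
  exact hs0 h2.symm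

lemma dehom_totalDegree {F : Type} [Field F] {m d : ℕ} (B : MvPolynomial (Fin (m + 1)) F)
    (hB : B.totalDegree ≤ d) : (dehom B).totalDegree ≤ d := by
  rw [dehom_sum]
  refine totalDegree_finsetSum_le ?_
  intro s hs
  refine (totalDegree_monomial_le _ _).trans ?_
  have h1 : s.degree ≤ d := (le_totalDegree hs).trans hB
  have h2 := degree_split s
  have h3 : s.tail.degree ≤ d := by omega
  exact h3

lemma eval_lc {F σ ι : Type} [Field F] [Fintype ι] (A : ι → MvPolynomial σ F) (c : ι → F)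
    (z : σ → F) : eval z (lc A c) = ∑ s, c s * eval z (A s) := by
  rw [lc, map_sum]
  refine Finset.sum_congr rfl fun s _ => ?_
  rw [map_mul, eval_C]

lemma top_ne_zero {F : Type} [Field F] {n : ℕ} (Q : MvPolynomial (Fin n) F) (hQ : Q ≠ 0) :
    homogeneousComponent Q.totalDegree Q ≠ 0 := by
  have hne : Q.support.Nonempty := by
    rw [Finset.nonempty_iff_ne_empty]
    intro h
    exact hQ (support_eq_empty.mp h)
  obtain ⟨s, hs, hmax⟩ := Finset.exists_mem_eq_sup Q.support hne (fun s => s.sum fun _ e => e)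
  intro h0
  have h1 : coeff s (homogeneousComponent Q.totalDegree Q) = coeff s Q := by
    rw [coeff_homogeneousComponent, if_pos]
    exact hmax.symm
  rw [h0, coeff_zero] at h1
  exact mem_support_iff.mp hs h1.symm

/-- the number of `e` in the range -/
lemma card_I (E : ℕ) :
    (E : ℝ) / 2 ≤ (((Finset.range (E + 1)).filter (fun e => E ≤ 2 * e)).card : ℝ) := by
  have h1 : (Finset.Icc ((E + 1) / 2) E) ⊆ (Finset.range (E + 1)).filter (fun e => E ≤ 2 * e) := by
    intro e he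
    rw [Finset.mem_Icc] at he
    rw [Finset.mem_filter, Finset.mem_range]
    omega
  have h2 := Finset.card_le_card h1
  rw [Nat.card_Icc] at h2
  have h3 : E ≤ 2 * ((Finset.range (E + 1)).filter (fun e => E ≤ 2 * e)).card := by omega
  have h4 : (E : ℝ) ≤ 2 * (((Finset.range (E + 1)).filter (fun e => E ≤ 2 * e)).card : ℝ) := by
    exact_mod_cast h3
  linarith

theorem lb : S_LL2 → S_ILS → S_HOM → S_TOP → S_CP → S_DIR → S_LB := by
  intro hLL2 hILS hHOM hTOP hCP hDIR j k hk hkj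
  refine ⟨2 * (4 * ((j : ℝ) + 1)) ^ j * ((k : ℝ) + 1) ^ k, by positivity, ?_⟩
  intro F _ _ P hP b Q hQ hQP E hE hQE hEq
  set Z : Finset (Fin (j + 1) → F) := (Finset.univ : Finset (Fin (j + 1) → F)).filter
    (fun y => E < cnt P (b y) (Fin.cons 1 y : Fin (j + 2) → F)) with hZ
  set d : ℕ := Q.totalDegree with hd
  -- the count of zeros
  have hcnt : ∀ (R : MvPolynomial (Fin (j + 2)) F),
      (∀ p ∈ P, ∀ x : Fin (j + 2) → F, x - p.1 ∈ p.2 → eval x R = 0) → ∀ y ∈ Z,
      E < (Finset.univ.filter (fun t : F =>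
        eval (b y + t • (Fin.cons 1 y : Fin (j + 2) → F)) R = 0)).card := by
    intro R hR y hy
    rw [hZ, Finset.mem_filter] at hy
    refine lt_of_lt_of_le hy.2 ?_
    unfold cnt
    apply Finset.card_le_card
    intro t ht
    rw [Finset.mem_filter] at ht ⊢
    obtain ⟨_, p, hp, hpt⟩ := ht
    exact ⟨Finset.mem_univ _, hR p hp _ hpt⟩
  -- the polynomial of low degree vanishing on `Z`
  set Qd := homogeneousComponent d Q with hQd
  have hQd0 : Qd ≠ 0 := top_ne_zero Q hQ
  have hQdh : Qd.IsHomogeneous d := homogeneousComponent_isHomogeneous d Q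
  have hpd0 : dehom Qd ≠ 0 := dehom_ne_zero Qd hQdh hQd0
  have hpdeg : (dehom Qd).totalDegree ≤ d := dehom_totalDegree Qd (hQdh.totalDegree_le)
  have hpZ : ∀ y ∈ Z, eval y (dehom Qd) = 0 := by
    intro y hy
    rw [eval_dehom]
    refine hLL2 F (j + 2) Q d le_rfl (b y) _ ?_
    have := hcnt Q hQP y hy
    omega
  obtain ⟨u, hu, hline⟩ := hDIR F j (dehom Qd) hpd0 d hpdeg (by omega)
  have hlineZ : ∀ y : Fin (j + 1) → F,
      (Finset.univ.filter (fun t : F => y + t • u ∈ Z)).card ≤ d := by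
    intro y
    refine le_trans (Finset.card_le_card ?_) (hline y)
    intro t ht
    rw [Finset.mem_filter] at ht ⊢
    exact ⟨Finset.mem_univ _, hpZ _ ht.2⟩
  -- the interpolation families
  set I : Finset ℕ := (Finset.range (E + 1)).filter (fun e => E ≤ 2 * e) with hI
  have hIe : ∀ e ∈ I, e ≤ E ∧ E ≤ 2 * e := by
    intro e he
    rw [hI, Finset.mem_filter, Finset.mem_range] at he
    exact ⟨by omega, he.2⟩
  have hfam : ∀ e : ℕ, ∃ (N : ℕ) (B : Fin N → MvPolynomial (Fin (j + 2)) F),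
      (∀ s, (B s).IsHomogeneous e) ∧ (e ∈ I →
        ((Z.card : ℝ) * ((e : ℝ) / (2 * ((j : ℝ) + 1) * (Fintype.card F : ℝ))) ^ j ≤ (N : ℝ)) ∧
        ∀ c : Fin N → F, (∀ z ∈ Z, eval (Fin.cons 1 z : Fin (j + 2) → F) (lc B c) = 0) →
          c = 0) := by
    intro e
    by_cases he : e ∈ I
    · obtain ⟨h1, h2⟩ := hIe e he
      obtain ⟨N, A, hA, hN, hinj⟩ := hILS j F Z u hu d e (by omega) (by omega) hlineZ
      have hB := fun s => hHOM F (j + 1) e (A s) (hA s)
      choose B hB1 hB2 using hB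
      refine ⟨N, B, hB1, fun _ => ⟨hN, ?_⟩⟩
      intro c hc
      apply hinj c
      intro z hz
      have h3 := hc z hz
      rw [eval_lc] at h3 ⊢
      rw [← h3]
      refine Finset.sum_congr rfl fun s _ => ?_
      rw [← eval_dehom, hB2]
    · exact ⟨0, fun s => s.elim0, fun s => s.elim0, fun h => absurd h he⟩
  choose N B hB hNB using hfam
  -- the count
  have hclaim : ∑ e ∈ I, N e ≤ P.card * (E + k).choose k := by
    by_contra hcon
    push Not at hcon
    have hcard : Fintype.card ((e : I) × Fin (N (e : ℕ))) = ∑ e ∈ I, N e := by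
      rw [Fintype.card_sigma]
      simp only [Fintype.card_fin]
      exact Finset.sum_coe_sort I N
    obtain ⟨c, hc0, hcP⟩ := hCP F (j + 2) k E ((e : I) × Fin (N (e : ℕ)))
      (fun i => B (i.1 : ℕ) i.2) (fun i => ((hB _ _).totalDegree_le).trans
        (hIe _ i.1.2).1) P hP (by rw [hcard]; exact hcon)
    obtain ⟨e, hce, hRe, hRh⟩ := hTOP F (j + 2) I N B hB c hc0
    apply hce
    apply (hNB (e : ℕ) e.2).2
    intro z hz
    rw [← hRh]
    refine hLL2 F (j + 2) _ (e : ℕ) hRe (b z) _ ?_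
    exact lt_of_le_of_lt (hIe _ e.2).1 (hcnt _ hcP z hz)
  -- real numbers
  set q : ℝ := (Fintype.card F : ℝ) with hq
  have hq0 : 0 < q := by
    rw [hq]
    exact_mod_cast Fintype.card_pos
  have hE0 : (0 : ℝ) < E := by exact_mod_cast hE
  have hN : ∀ e ∈ I, (Z.card : ℝ) * ((E : ℝ) / (4 * ((j : ℝ) + 1) * q)) ^ j ≤ (N e : ℝ) := by
    intro e he
    refine le_trans ?_ (hNB e he).1
    refine mul_le_mul_of_nonneg_left ?_ (Nat.cast_nonneg _)
    refine pow_le_pow_left₀ (by positivity) ?_ j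
    rw [div_le_div_iff₀ (by positivity) (by positivity)]
    have h1 : (E : ℝ) ≤ 2 * e := by exact_mod_cast (hIe e he).2
    have h2 : 0 ≤ 2 * ((j : ℝ) + 1) * q := by positivity
    nlinarith [mul_le_mul_of_nonneg_right h1 h2]
  have hsum : (I.card : ℝ) * ((Z.card : ℝ) * ((E : ℝ) / (4 * ((j : ℝ) + 1) * q)) ^ j) ≤
      (P.card : ℝ) * (((k : ℝ) + 1) * E) ^ k := by
    have h1 : (I.card : ℝ) * ((Z.card : ℝ) * ((E : ℝ) / (4 * ((j : ℝ) + 1) * q)) ^ j) ≤
        ∑ e ∈ I, (N e : ℝ) := by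
      rw [← nsmul_eq_mul]
      exact Finset.card_nsmul_le_sum _ _ _ hN
    have h2 : ∑ e ∈ I, (N e : ℝ) ≤ (P.card : ℝ) * (((E + k).choose k : ℕ) : ℝ) := by
      exact_mod_cast hclaim
    have h3 : (((E + k).choose k : ℕ) : ℝ) ≤ (((k : ℝ) + 1) * E) ^ k := by
      have h4 : (((E + k).choose k : ℕ) : ℝ) ≤ ((E : ℝ) + k) ^ k := by
        exact_mod_cast Nat.choose_le_pow (E + k) k
      refine h4.trans (pow_le_pow_left₀ (by positivity) ?_ k)
      have h5 : (1 : ℝ) ≤ E := by exact_mod_cast hE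
      have h6 : (0 : ℝ) ≤ k := Nat.cast_nonneg k
      nlinarith
    exact h1.trans (h2.trans (mul_le_mul_of_nonneg_left h3 (Nat.cast_nonneg _)))
  have hcI := card_I E
  rw [← hI] at hcI
  have hmain : (E : ℝ) / 2 * ((Z.card : ℝ) * ((E : ℝ) / (4 * ((j : ℝ) + 1) * q)) ^ j) ≤
      (P.card : ℝ) * (((k : ℝ) + 1) * E) ^ k :=
    (mul_le_mul_of_nonneg_right hcI (by positivity)).trans hsum
  rw [div_pow, mul_pow (4 * ((j : ℝ) + 1)) q, mul_pow ((k : ℝ) + 1) (E : ℝ)] at hmain
  have hEk : (0 : ℝ) < (E : ℝ) ^ k := by positivity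
  have hexp : (E : ℝ) ^ (j + 1 - k) * (E : ℝ) ^ k = (E : ℝ) * (E : ℝ) ^ j := by
    rw [← pow_add, ← pow_succ']
    congr 1
    omega
  refine le_of_mul_le_mul_right ?_ hEk
  have hD : (0 : ℝ) < (4 * ((j : ℝ) + 1)) ^ j * q ^ j := by positivity
  have h7 : (E : ℝ) / 2 * ((Z.card : ℝ) * ((E : ℝ) ^ j / ((4 * ((j : ℝ) + 1)) ^ j * q ^ j))) =
      ((Z.card : ℝ) * ((E : ℝ) * (E : ℝ) ^ j)) / (2 * ((4 * ((j : ℝ) + 1)) ^ j * q ^ j)) := by
    field_simp
  rw [h7, div_le_iff₀ (by positivity)] at hmain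
  calc (Z.card : ℝ) * (E : ℝ) ^ (j + 1 - k) * (E : ℝ) ^ k =
      (Z.card : ℝ) * ((E : ℝ) * (E : ℝ) ^ j) := by rw [mul_assoc, hexp]
    _ ≤ (P.card : ℝ) * (((k : ℝ) + 1) ^ k * (E : ℝ) ^ k) *
        (2 * ((4 * ((j : ℝ) + 1)) ^ j * q ^ j)) := hmain
    _ = 2 * (4 * ((j : ℝ) + 1)) ^ j * ((k : ℝ) + 1) ^ k * (P.card : ℝ) * q ^ j *
        (E : ℝ) ^ k := by ring

end Pool.Agent.W403.KP
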